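import Pool.Agent.H43.G.R_seed8.W66.ZC
import Pool.Agent.H43.G.R_seed8.Y957.VK.Stm

/-!
Zero free region and bound for the inverse of the zeta function from the upper bound: local lemmas
(job 8117, helper333).
-/

set_option autoImplicit false

open Complex Filter Topology Set MeasureTheory Metric

namespace Pool.Agent.Y333.VK

/-- `ζ(s) ≤ 1 + 1 / (s - 1)` for real `s > 1` -/
lemma zeta_le {s : ℝ} (hs : 1 < s) : ∑' n : ℕ, (n : ℝ) ^ (-s) ≤ 1 + 1 / (s - 1) := by
  have hsum : Summable (fun n : ℕ => (n : ℝ) ^ (-s)) :=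
    Real.summable_nat_rpow.mpr (by linarith)
  rw [hsum.tsum_eq_zero_add]
  have h0 : ((0 : ℕ) : ℝ) ^ (-s) = 0 := by
    rw [Nat.cast_zero, Real.zero_rpow (by linarith)]
  rw [h0, zero_add]
  have h1 : ∀ n : ℕ, ((n + 1 : ℕ) : ℝ) ^ (-s) = 1 / ((n : ℝ) + 1) ^ s := by
    intro n
    rw [Real.rpow_neg (by positivity), one_div]
    push_cast
    rfl
  simp_rw [h1]
  have h2 := ZetaAsymptotics.zeta_limit_aux1 hs
  have h3 : 0 ≤ ZetaAsymptotics.termTSum s :=
    tsum_nonneg fun n => ZetaAsymptotics.term_nonneg _ _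
  have h4 : 0 ≤ s * ZetaAsymptotics.termTSum s := mul_nonneg (by linarith) h3
  linarith

/-- bound for the inverse to the right of `1` -/
lemma inv_le {w : ℂ} (hw : 1 < w.re) : ‖(riemannZeta w)⁻¹‖ ≤ 1 + 1 / (w.re - 1) := by
  have h1 := ArithmeticFunction.LSeries_zeta_mul_Lseries_moebius hw
  rw [ArithmeticFunction.LSeries_zeta_eq_riemannZeta hw] at h1
  have h2 : (riemannZeta w)⁻¹ = LSeries (fun n => ((ArithmeticFunction.moebius n : ℤ) : ℂ)) w :=
    inv_eq_of_mul_eq_one_right h1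
  rw [h2, LSeries]
  refine le_trans ?_ (zeta_le hw)
  have hsum : Summable (fun n : ℕ => (n : ℝ) ^ (-w.re)) :=
    Real.summable_nat_rpow.mpr (by linarith)
  have h3 : ∀ n : ℕ, ‖LSeries.term (fun n => ((ArithmeticFunction.moebius n : ℤ) : ℂ)) w n‖
      ≤ (n : ℝ) ^ (-w.re) := by
    intro n
    rcases Nat.eq_zero_or_pos n with rfl | hn
    · rw [LSeries.term_zero, norm_zero]
      exact Real.rpow_nonneg (Nat.cast_nonneg 0) _
    · rw [LSeries.term_of_ne_zero hn.ne', norm_div, Complex.norm_natCast_cpow_of_pos hn,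
        Real.rpow_neg (Nat.cast_nonneg n), ← one_div]
      apply div_le_div_of_nonneg_right _ (Real.rpow_nonneg (Nat.cast_nonneg n) _)
      rw [Complex.norm_intCast]
      exact_mod_cast ArithmeticFunction.abs_moebius_le_one
  exact tsum_of_norm_bounded hsum.hasSum h3

/-- the upper bound -/
def UB (δ K t₀ : ℝ) : Prop := ∀ σ t : ℝ, t₀ ≤ |t| → 1 - (Real.log |t|) ^ (δ - 1) ≤ σ → σ ≤ 3 →
  ‖riemannZeta ⟨σ, t⟩‖ ≤ K * Real.log |t|

/-- the width -/
noncomputable def ww (δ t : ℝ) : ℝ := (Real.log |t|) ^ (δ - 1) / 32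

lemma one_le_log {x : ℝ} (hx : 3 ≤ x) : 1 ≤ Real.log x := by
  rw [Real.le_log_iff_exp_le (by linarith)]
  have := Real.exp_one_lt_d9
  linarith

lemma ww_pos {δ t : ℝ} (hδ1 : δ < 1) (ht : 3 ≤ |t|) : 0 < ww δ t ∧ ww δ t ≤ 1 / 32 := by
  have h1 := one_le_log ht
  have h2 : (Real.log |t|) ^ (δ - 1) ≤ 1 := Real.rpow_le_one_of_one_le_of_nonpos h1 (by linarith)
  have h3 : 0 < (Real.log |t|) ^ (δ - 1) := Real.rpow_pos_of_pos (by linarith) _
  unfold ww
  constructor <;> linarith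

/-- comparison of logarithms at comparable heights -/
lemma log_near {δ t v : ℝ} (hδ0 : 0 < δ) (hδ1 : δ < 1) (ht : 3 ≤ |t|) (hv : 3 ≤ |v|)
    (h : |v| ≤ 2 * |t| + 1) : Real.log |v| ≤ 2 * Real.log |t| ∧
    (Real.log |t|) ^ (δ - 1) / 2 ≤ (Real.log |v|) ^ (δ - 1) := by
  have h1 : Real.log |v| ≤ 2 * Real.log |t| := by
    have h2 : Real.log |v| ≤ Real.log (|t| ^ 2) := Real.log_le_log (by linarith) (by nlinarith)
    rw [Real.log_pow] at h2
    exact_mod_cast h2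
  refine ⟨h1, ?_⟩
  have h2 := one_le_log ht
  have h3 := one_le_log hv
  have h4 : (2 * Real.log |t|) ^ (δ - 1) ≤ (Real.log |v|) ^ (δ - 1) :=
    Real.rpow_le_rpow_of_nonpos (by linarith) h1 (by linarith)
  refine le_trans ?_ h4
  rw [Real.mul_rpow (by norm_num) (by linarith)]
  have h5 : (1 : ℝ) / 2 ≤ 2 ^ (δ - 1) := by
    have h6 : (2 : ℝ) ^ (-1 : ℝ) ≤ 2 ^ (δ - 1) :=
      Real.rpow_le_rpow_of_exponent_le (by norm_num) (by linarith)
    rw [Real.rpow_neg_one] at h6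
    linarith
  have h7 : 0 ≤ (Real.log |t|) ^ (δ - 1) := Real.rpow_nonneg (by linarith) _
  nlinarith

/-- the upper bound around height `t` -/
lemma ub {δ K t₀ : ℝ} (hδ0 : 0 < δ) (hδ1 : δ < 1) (hK : 1 ≤ K) (ht₀ : 3 ≤ t₀) (h : UB δ K t₀)
    {t : ℝ} (ht : t₀ + 1 ≤ |t|) {z : ℂ} (h1 : |t| - 1 ≤ |z.im|) (h2 : |z.im| ≤ 2 * |t| + 1)
    (h3 : 1 - 16 * ww δ t ≤ z.re) (h4 : z.re ≤ 3) : ‖riemannZeta z‖ ≤ 2 * K * Real.log |t| := by
  obtain ⟨h5, h6⟩ := log_near hδ0 hδ1 (by linarith : 3 ≤ |t|) (by linarith : 3 ≤ |z.im|) h2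
  have h7 := h z.re z.im (by linarith) (by
    unfold ww at h3
    linarith) h4
  have h8 : (⟨z.re, z.im⟩ : ℂ) = z := rfl
  rw [h8] at h7
  refine h7.trans ?_
  nlinarith

/-- real parts of sums over zeros -/
lemma sum_re {c : ℂ} (hc : 1 < c.re) (m : Multiset ℂ) (h : ∀ ρ ∈ m, ρ.re < 1) :
    0 ≤ ((m.map (fun ρ => 1 / (c - ρ))).sum).re ∧
      ∀ ρ ∈ m, (1 / (c - ρ)).re ≤ ((m.map (fun ρ => 1 / (c - ρ))).sum).re := by
  revert h
  induction m using Multiset.induction_on with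
  | empty => intro _; simp
  | cons a m ih =>
    intro h
    have ha := h a (Multiset.mem_cons_self a m)
    obtain ⟨i1, i2⟩ := ih fun ρ hρ => h ρ (Multiset.mem_cons_of_mem hρ)
    have ha2 : 0 ≤ (1 / (c - a)).re := by
      rw [one_div, Complex.inv_re]
      apply div_nonneg _ (Complex.normSq_nonneg _)
      simp only [sub_re]
      linarith
    rw [Multiset.map_cons, Multiset.sum_cons, add_re]
    refine ⟨by linarith, fun ρ hρ => ?_⟩
    rw [Multiset.mem_cons] at hρ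
    rcases hρ with rfl | hρ
    · linarith
    · have := i2 ρ hρ
      linarith

/-- the local lemma -/
lemma loc {δ K t₀ : ℝ} (hδ0 : 0 < δ) (hδ1 : δ < 1) (hK : 1 ≤ K) (ht₀ : 3 ≤ t₀) (h : UB δ K t₀)
    {t τ η : ℝ} (ht : t₀ + 1 ≤ |t|) (hτ1 : |t| ≤ |τ|) (hτ2 : |τ| ≤ 2 * |t|) (hη0 : 0 < η)
    (hη : η ≤ ww δ t) :
    (-(12 * (Real.log (4 * K * Real.log |t| / η) + 1) / ww δ t) ≤
      (deriv riemannZeta ⟨1 + η, τ⟩ / riemannZeta ⟨1 + η, τ⟩).re) ∧
    (∀ ρ ∈ closedBall (⟨1 + η, τ⟩ : ℂ) (2 * ww δ t), riemannZeta ρ = 0 →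
      (1 / ((⟨1 + η, τ⟩ : ℂ) - ρ)).re -
        12 * (Real.log (4 * K * Real.log |t| / η) + 1) / ww δ t ≤
        (deriv riemannZeta ⟨1 + η, τ⟩ / riemannZeta ⟨1 + η, τ⟩).re) ∧
    (∀ z ∈ closedBall (⟨1 + η, τ⟩ : ℂ) (ww δ t), ∀ d : ℝ, 0 < d →
      (∀ ρ ∈ closedBall (⟨1 + η, τ⟩ : ℂ) (2 * ww δ t), riemannZeta ρ = 0 → d ≤ ‖z - ρ‖) →
      riemannZeta z ≠ 0 ∧ ‖deriv riemannZeta z / riemannZeta z‖ ≤
        Real.log (4 * K * Real.log |t| / η) * (3 / 2) / d +
          12 * (Real.log (4 * K * Real.log |t| / η) + 1) / ww δ t) := by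
  obtain ⟨hw0, hw1⟩ := ww_pos hδ1 (by linarith : 3 ≤ |t|)
  have hL1 : 1 ≤ Real.log |t| := one_le_log (by linarith)
  have hub := fun (z : ℂ) => @ub δ K t₀ hδ0 hδ1 hK ht₀ h t ht z
  generalize ww δ t = w at *
  generalize hLL : Real.log |t| = L at *
  set c : ℂ := ⟨1 + η, τ⟩ with hc
  have hcr : c.re = 1 + η := rfl
  have hci : c.im = τ := rfl
  have hball : ∀ z ∈ closedBall c (4 * w), ‖riemannZeta z‖ ≤ 2 * K * L := by
    intro z hz
    rw [mem_closedBall, dist_eq_norm] at hz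
    have h1 := (abs_re_le_norm (z - c)).trans hz
    have h2 := (abs_im_le_norm (z - c)).trans hz
    rw [sub_re, hcr, abs_le] at h1
    rw [sub_im, hci] at h2
    have h3 : |τ| - |z.im| ≤ |z.im - τ| := by
      rw [abs_sub_comm]
      exact abs_sub_abs_le_abs_sub _ _
    have h4 : |z.im| - |τ| ≤ |z.im - τ| := abs_sub_abs_le_abs_sub _ _
    exact hub z (by linarith) (by linarith) (by linarith [h1.1]) (by linarith [h1.2])
  have hne : ∀ z ∈ closedBall c (4 * w), z ≠ 1 := by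
    intro z hz he
    rw [he, mem_closedBall, dist_eq_norm] at hz
    have h2 := (abs_im_le_norm (1 - c)).trans hz
    rw [sub_im, one_im, hci, zero_sub, abs_neg] at h2
    linarith
  have han : AnalyticOnNhd ℂ riemannZeta (closedBall c (4 * w)) := by
    have h1 : DifferentiableOn ℂ riemannZeta {1}ᶜ := fun z hz =>
      (differentiableAt_riemannZeta hz).differentiableWithinAt
    exact (h1.analyticOnNhd isOpen_compl_singleton).mono fun z hz => hne z hz
  have hcm : c ∈ closedBall c (4 * w) := mem_closedBall_self (by linarith)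
  have hcb := hball c hcm
  have hcre : 1 < c.re := by rw [hcr]; linarith
  have hc0 : riemannZeta c ≠ 0 := riemannZeta_ne_zero_of_one_lt_re hcre
  have hM1 : 1 ≤ 2 * K * L := by nlinarith
  have hcpos : 0 < ‖riemannZeta c‖ := norm_pos_iff.2 hc0
  have hinv : ‖riemannZeta c‖⁻¹ ≤ 2 / η := by
    have h1 := inv_le hcre
    rw [norm_inv] at h1
    have h2 : c.re - 1 = η := by rw [hcr]; ring
    rw [h2] at h1
    refine h1.trans ?_
    have h3 : 1 ≤ 1 / η := by rw [le_div_iff₀ hη0]; linarith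
    have h4 : 2 / η = 1 / η + 1 / η := by ring
    linarith
  have hK0 : 0 < K := by linarith
  have hL0 : 0 < L := by linarith
  have hlog : Real.log (2 * K * L / ‖riemannZeta c‖) ≤ Real.log (4 * K * L / η) := by
    apply Real.log_le_log (by positivity)
    calc 2 * K * L / ‖riemannZeta c‖ = 2 * K * L * ‖riemannZeta c‖⁻¹ := div_eq_mul_inv _ _
      _ ≤ 2 * K * L * (2 / η) := mul_le_mul_of_nonneg_left hinv (by positivity)
      _ = 4 * K * L / η := by ring
  have hlog0 : 0 ≤ Real.log (2 * K * L / ‖riemannZeta c‖) :=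
    Real.log_nonneg (by rw [le_div_iff₀ hcpos]; linarith)
  have hq : Real.log (2 * w / (4 * w - 2 * w)) = 0 := by
    have h1 : 4 * w - 2 * w = 2 * w := by ring
    rw [h1, div_self (by positivity), Real.log_one]
  have herr : 2 * (Real.log (2 * K * L / ‖riemannZeta c‖) +
      Real.log (2 * K * L / ‖riemannZeta c‖) / Real.log (4 * w / (2 * w)) *
      Real.log (2 * w / (4 * w - 2 * w)) + 1) * (3 / 2 * w) / (2 * w - 3 / 2 * w) /
      (3 / 2 * w - w) ≤ 12 * (Real.log (4 * K * L / η) + 1) / w := by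
    rw [hq]
    have e1 : 2 * w - 3 / 2 * w = w / 2 := by ring
    have e2 : 3 / 2 * w - w = w / 2 := by ring
    rw [e1, e2, mul_zero, add_zero]
    have e3 : 2 * (Real.log (2 * K * L / ‖riemannZeta c‖) + 1) * (3 / 2 * w) / (w / 2) / (w / 2) =
        12 * (Real.log (2 * K * L / ‖riemannZeta c‖) + 1) / w := by
      field_simp
      ring
    rw [e3]
    gcongr
  have hzre : ∀ ρ : ℂ, riemannZeta ρ = 0 → ρ.re < 1 := by
    intro ρ hρ
    by_contra hcon
    exact riemannZeta_ne_zero_of_one_le_re (not_lt.1 hcon) hρ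
  obtain ⟨s, hs1, hs2, hs3⟩ := Pool.Agent.W66.landau_re (f := riemannZeta) (c := c) (r := 2 * w)
    (r1 := 3 / 2 * w) (r2 := w) (R := 4 * w) (M := 2 * K * L) hw0 (by linarith) (by linarith)
    (by linarith) (by linarith) hM1 hcb han hc0 hball
  have hcne : ∀ ρ ∈ s, c ≠ ρ := by
    intro ρ hρ he
    have h1 := hzre ρ (hs1 ρ hρ).2
    rw [← he] at h1
    linarith
  have h3 := (hs3 c (mem_closedBall_self hw0.le) hcne).trans herr
  obtain ⟨j1, j2⟩ := sum_re hcre s fun ρ hρ => hzre ρ (hs1 ρ hρ).2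
  have h4 := (Complex.abs_re_le_norm _).trans h3
  rw [sub_re, abs_le] at h4
  refine ⟨by linarith [h4.1], fun ρ hρ hρ0 => ?_, fun z hz d hd hdist => ?_⟩
  · have := j2 ρ (hs2 ρ hρ hρ0)
    linarith [h4.1]
  · obtain ⟨h5, h6⟩ := H370.Loc.landau (f := riemannZeta) (c := c) (r := 2 * w)
      (r1 := 3 / 2 * w) (r2 := w) (R := 4 * w) (M := 2 * K * L) hw0 (by linarith) (by linarith)
      (by linarith) (by linarith) hM1 hcb han hc0 hball z hz d hd hdist
    refine ⟨h5, h6.trans (add_le_add ?_ herr)⟩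
    have e1 : 4 * w / (2 * w) = 2 := by
      field_simp
      norm_num
    rw [e1]
    have hl2 : 2 / 3 ≤ Real.log 2 := by
      have := Real.log_two_gt_d9
      linarith
    have e2 : Real.log (2 * K * L / ‖riemannZeta c‖) / Real.log 2 ≤
        Real.log (4 * K * L / η) * (3 / 2) := by
      rw [div_le_iff₀ (by linarith)]
      have h7 : 0 ≤ Real.log (4 * K * L / η) := hlog0.trans hlog
      nlinarith
    gcongr

end Pool.Agent.Y333.VK
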